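import Pool.Agent.V11288.LZ.Theta

/-!
# The equation of Popescu's conjecture as a statement on the distribution of primes

Let `K/k` be a finite abelian extension of number fields with group `G`, `S` a finite set of places of `k` as in
the problem (we write `S` for the set of the finite places in it), `r ≥ 1`, and `w_1, …, w_r` places of `K`.  The
conjecture is about the unique element `η'` of the `e'`-part of `⋀^r ℂ E_S(K)` with

`R(η') = ∑_{χ ∈ Ĝ'} L^*_{K,S}(0, χ) e_{χ̄}`,  `L^*_{K,S}(0, χ) = lim_{s → 0} s^{-r} L_{K,S}(s, χ)`,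

and says that `w_K η' = x` for an element `x` of a certain lattice `Λ` of `ℚ ⋀^r E_S(K)`.  For a finite sum
`x = ∑_l q_l u_{l,1} ∧ … ∧ u_{l,r}` with `q_l ∈ ℚ` and `S_K`-units `u_{l,i}` let

`R_χ(x) = ∑_l q_l det(-∑_{σ ∈ G} log |σ(u_{l,i})|_{w_j} χ(σ))_{i,j}`,

the value of `χ̄` at `R(x) ∈ ℂ[G]`.  If `x` is in the `e'`-part, then `w_K η' = x` means that
`lim s^{-r} L_{K,S}(s, χ) = R_χ(x)/w_K` for all characters `χ` of `G` (for `χ ∉ Ĝ'` both sides are `0`).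

Let `γ > π/2`, and for a character `χ` and `X > 1`, with `u = k log Nv / log X`,

`W_χ(X) = ∑_{v ∉ S} ∑_{k ≥ 1} χ(σ_v)^k / k · e^{iγu} / Γ(1 + u)`

(`σ_v` the Frobenius), and `Λ_γ = ∫_0^∞ (e^{-t} - e^{iγt}/Γ(1+t)) dt/t`.  Then

1. `lim_{s → 0} s^{-r} L_{K,S}(s, χ) = R_χ(x)/w_K` for all `χ` if and only if
   `(log X)^r exp W_χ(X) → e^{rΛ_γ} R_χ(x)/w_K` for `X → ∞`, for all `χ`;

2. in this case `(log X)^r exp W_χ(X) = e^{rΛ_γ} R_χ(x)/w_K + O(1/log X)`.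

So Q1 says: for some `x ∈ Λ` in the `e'`-part, the explicit sums `(log X)^r exp W_χ(X)` over the primes have the
limits `e^{rΛ_γ} R_χ(x)/w_K`.  No analytic continuation is left, and no hypothesis on zeros of `L`-functions is
used.  The order of vanishing at `0` may be larger than `r`.

Proof.  `Pool.Agent.V11288.LZ` (the law of rotated Mittag-Leffler sums at all real points, with limits `0`
allowed).
-/

set_option autoImplicit false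

namespace Pool.Agent.Results.MP_1322f0_nt.EvaluatorsByPrimes

open Filter Topology Set NumberField IsDedekindDomain

variable {k K : Type} [Field k] [NumberField k] [Field K] [NumberField K] [Algebra k K]

/-- The norm of `v`. -/
noncomputable def nrm (v : HeightOneSpectrum (𝓞 k)) : ℕ := Ideal.absNorm v.asIdeal

/-- `g` is the Frobenius automorphism of a prime `Q` of `K` above `v`: `g(x) ≡ x^(N v)` modulo `Q`. -/
def IsFrobenius (v : HeightOneSpectrum (𝓞 k)) (g : K ≃ₐ[k] K) : Prop :=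
  ∃ Q : Ideal (𝓞 K), Q.IsPrime ∧ Q.comap (algebraMap (𝓞 k) (𝓞 K)) = v.asIdeal ∧
    ∀ x y : 𝓞 K, (y : K) = g (x : K) → y - x ^ nrm v ∈ Q

/-- The primes outside `S` are unramified in `K` and `σ v` is the Frobenius automorphism for `v ∉ S`. -/
structure IsData (S : Finset (HeightOneSpectrum (𝓞 k)))
    (σ : HeightOneSpectrum (𝓞 k) → (K ≃ₐ[k] K)) : Prop where
  unramified : ∀ v ∉ S, Squarefree (v.asIdeal.map (algebraMap (𝓞 k) (𝓞 K)))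
  frobenius : ∀ v ∉ S, IsFrobenius v (σ v)

/-- `Λ χ = L_{K,S}(s, χ)` for all characters `χ` of `G`: it is the Euler product for `Re s > 1`, and is
meromorphic at the points of the real interval `[0, 1]`. -/
structure IsLSeries (S : Finset (HeightOneSpectrum (𝓞 k)))
    (σ : HeightOneSpectrum (𝓞 k) → (K ≃ₐ[k] K)) (Λ : ((K ≃ₐ[k] K) →* ℂˣ) → ℂ → ℂ) : Prop where
  mero : ∀ χ, ∀ x ∈ Icc (0 : ℝ) 1, MeromorphicAt (Λ χ) (x : ℂ)
  prod : ∀ χ, ∀ s : ℂ, 1 < s.re → Λ χ s =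
    ∏' v : {v : HeightOneSpectrum (𝓞 k) // v ∉ S}, (1 - ((χ (σ v.1) : ℂˣ) : ℂ) * (nrm v.1 : ℂ) ^ (-s))⁻¹

/-- `R_χ(x) = ∑_l q_l det(-∑_{σ ∈ G} log |σ(u_{l,i})|_{w_j} χ(σ))_{i,j}`, where `w j` is the normalised
absolute value `|·|_{w_j}`. -/
noncomputable def regulator {r m : ℕ} (w : Fin r → K → ℝ) (q : Fin m → ℚ) (u : Fin m → Fin r → K)
    (χ : (K ≃ₐ[k] K) →* ℂˣ) : ℂ :=
  ∑ l, (q l : ℂ) * (Matrix.of fun i j => -∑ σ : K ≃ₐ[k] K, (Real.log (w j (σ (u l i))) : ℂ) * χ σ).det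

/-- The number of the roots of unity in `K`. -/
noncomputable def rootsOfUnity (K : Type) [Field K] : ℕ := Nat.card {x : K // ∃ n : ℕ, 0 < n ∧ x ^ n = 1}

/-- The term of `W_χ(X)` at `(v, n)`. -/
noncomputable def term (σ : HeightOneSpectrum (𝓞 k) → (K ≃ₐ[k] K)) (χ : (K ≃ₐ[k] K) →* ℂˣ)
    (γ X : ℝ) (v : HeightOneSpectrum (𝓞 k)) (n : ℕ) : ℂ :=
  ((χ (σ v) : ℂˣ) : ℂ) ^ n / n * (Complex.exp ((γ * (n * Real.log (nrm v) / Real.log X) : ℝ) * Complex.I) /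
    (Real.Gamma (1 + n * Real.log (nrm v) / Real.log X) : ℂ))

/-- `W_χ(X)`, the sum over `v ∉ S` and `n ≥ 1` (here `n = x.2 + 1`). -/
noncomputable def W (S : Finset (HeightOneSpectrum (𝓞 k)))
    (σ : HeightOneSpectrum (𝓞 k) → (K ≃ₐ[k] K)) (χ : (K ≃ₐ[k] K) →* ℂˣ) (γ X : ℝ) : ℂ :=
  ∑' x : {v : HeightOneSpectrum (𝓞 k) // v ∉ S} × ℕ, term σ χ γ X x.1.1 (x.2 + 1)

/-- `Λ_γ = ∫_0^∞ (e^{-t} - e^{iγt} / Γ(1 + t)) dt / t`. -/
noncomputable def Lam (γ : ℝ) : ℂ := ∫ t in Ioi (0 : ℝ),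
  (Complex.exp (-(t : ℂ)) - Complex.exp ((γ * t : ℝ) * Complex.I) * ((Real.Gamma (1 + t))⁻¹ : ℝ)) / t

open Pool.Agent.V11288.LZ

variable {σ : HeightOneSpectrum (𝓞 k) → (K ≃ₐ[k] K)} {S : Finset (HeightOneSpectrum (𝓞 k))}

theorem eul (χ : (K ≃ₐ[k] K) →* ℂˣ) :
    Eul 1 0 (fun v : {v : HeightOneSpectrum (𝓞 k) | v ∉ S} => (Ideal.absNorm v.1.asIdeal : ℝ))
      (fun v => Matrix.diagonal fun _ : Fin 1 => ((χ (σ v.1) : ℂˣ) : ℂ)) := by
  refine eul_alpha (α := fun v _ => ((χ (σ v.1) : ℂˣ) : ℂ)) fun v j => ?_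
  rw [Real.rpow_zero]
  have h1 : ((χ (σ v.1) : ℂˣ) : ℂ) ^ (Nat.card (K ≃ₐ[k] K)) = 1 := by
    rw [← Units.val_pow_eq_pow_val, ← map_pow, pow_card_eq_one', map_one, Units.val_one]
  exact (Complex.norm_eq_one_of_pow_eq_one h1 Nat.card_pos.ne').le

theorem W_eq (χ : (K ≃ₐ[k] K) →* ℂˣ) (γ X : ℝ) :
    tot (fun v : {v : HeightOneSpectrum (𝓞 k) | v ∉ S} => (Ideal.absNorm v.1.asIdeal : ℝ))
      (fun v => Matrix.diagonal fun _ : Fin 1 => ((χ (σ v.1) : ℂˣ) : ℂ)) 0 γ X = W S σ χ γ X := by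
  refine tsum_congr fun x => ?_
  unfold tm term wt nrm
  rw [trace_diagonal_pow, Real.rpow_zero]
  simp

theorem prod_eq (χ : (K ≃ₐ[k] K) →* ℂˣ) (s : ℂ) :
    ∏' v : {v : HeightOneSpectrum (𝓞 k) | v ∉ S}, ((1 - (((Ideal.absNorm v.1.asIdeal : ℝ)) : ℂ) ^ (-s) •
      Matrix.diagonal fun _ : Fin 1 => ((χ (σ v.1) : ℂˣ) : ℂ)).det)⁻¹ =
    ∏' v : {v : HeightOneSpectrum (𝓞 k) // v ∉ S},
      (1 - ((χ (σ v.1) : ℂˣ) : ℂ) * (nrm v.1 : ℂ) ^ (-s))⁻¹ := by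
  refine tprod_congr fun v => ?_
  rw [det_diagonal_sub]
  simp [nrm]

/-- **The evaluators as limits of sums over primes.** -/
theorem result [IsAbelianGalois k K] (S : Finset (HeightOneSpectrum (𝓞 k)))
    (σ : HeightOneSpectrum (𝓞 k) → (K ≃ₐ[k] K)) (_ : IsData S σ)
    (Λ : ((K ≃ₐ[k] K) →* ℂˣ) → ℂ → ℂ) (hΛ : IsLSeries S σ Λ) (γ : ℝ) (hγ : Real.pi / 2 < γ)
    {r m : ℕ} (w : Fin r → K → ℝ) (q : Fin m → ℚ) (u : Fin m → Fin r → K) (χ : (K ≃ₐ[k] K) →* ℂˣ) :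
    (Tendsto (fun s : ℂ => Λ χ s / s ^ r) (𝓝[≠] 0) (𝓝 (regulator w q u χ / rootsOfUnity K)) ↔
      Tendsto (fun X : ℝ => (Real.log X : ℂ) ^ r * Complex.exp (W S σ χ γ X)) atTop
        (𝓝 (Complex.exp (r * Lam γ) * (regulator w q u χ / rootsOfUnity K)))) ∧
    (Tendsto (fun s : ℂ => Λ χ s / s ^ r) (𝓝[≠] 0) (𝓝 (regulator w q u χ / rootsOfUnity K)) →
      (fun X : ℝ => (Real.log X : ℂ) ^ r * Complex.exp (W S σ χ γ X) -
        Complex.exp (r * Lam γ) * (regulator w q u χ / rootsOfUnity K)) =O[atTop]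
        (fun X : ℝ => 1 / Real.log X)) := by
  have hm : ∀ x ∈ Icc (0 : ℝ) (1 + 0), MeromorphicAt (Λ χ) (x : ℂ) := fun x hx =>
    hΛ.mero χ x ⟨hx.1, by linarith [hx.2]⟩
  have hp : ∀ s : ℂ, (1 : ℝ) + 0 < s.re → Λ χ s =
      ∏' v : {v : HeightOneSpectrum (𝓞 k) | v ∉ S}, ((1 - (((Ideal.absNorm v.1.asIdeal : ℝ)) : ℂ) ^ (-s) •
        Matrix.diagonal fun _ : Fin 1 => ((χ (σ v.1) : ℂˣ) : ℂ)).det)⁻¹ := by
    intro s hs
    rw [prod_eq, hΛ.prod χ s (by linarith)]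
  have h1 := (eul (S := S) (σ := σ) χ).lead_iff 0 hm hp hγ (r : ℤ) (regulator w q u χ / rootsOfUnity K)
  have h2 : Tendsto (fun s : ℂ => Λ χ s / (s - ((0 : ℝ) : ℂ)) ^ (r : ℤ)) (𝓝[≠] ((0 : ℝ) : ℂ))
      (𝓝 (regulator w q u χ / rootsOfUnity K)) → _ :=
    fun h => (eul (S := S) (σ := σ) χ).lead_rate 0 hm hp hγ h
  simp only [W_eq, zpow_natCast, Complex.ofReal_zero, sub_zero, Int.cast_natCast] at h1 h2
  exact ⟨h1, h2⟩

end Pool.Agent.Results.MP_1322f0_nt.EvaluatorsByPrimes
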